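import Pool.Agent.R389.Main
import Pool.Agent.R389.Brauer
import Pool.Agent.R389.Quat

/-!
# From monomial characters to irreducible characters
-/

set_option autoImplicit false

namespace Pool.Agent.Helper61K9.CV

open Filter Topology Pool.Agent.R389 Pool.Agent.H541R3.ART

/-- linear characters of subgroups with values in `E'` -/
abbrev Ix (G E' : Type) [Group G] [Field E'] : Type := Σ U : Subgroup G, (U →* E'ˣ)

/-- the virtual character of a combination of monomial characters -/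
noncomputable def chr {G E' : Type} [Group G] [Field E'] (a : Ix G E' →₀ ℤ) : G → E' :=
  fun g => a.sum fun i n => (n : E') * ind i.1 (fun u => ((i.2 u : E'ˣ) : E')) g

/-- [BRG] from functions attached to the linear characters of the subgroups in the class `A`
(L-functions `ℓ` and periods `p` of monomial twists) to functions `L`, `P` attached to the irreducible
complex characters and the embeddings of the coefficient field -/
def S_BRG : Prop := ∀ (G : Type) [Group G] [Finite G] (E' : Type) [Field E'] [NumberField E']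
  (ζ : E'), IsPrimitiveRoot ζ (Monoid.exponent G) → ∀ A : Subgroup G → Prop,
  (∀ U : Subgroup G, Tame U → A U) → ∀ (z : ℂ) (ℓ : Ix G E' → (E' →+* ℂ) → ℂ → ℂ)
  (p : Ix G E' → (E' →+* ℂ) → ℂ),
  (∀ i : Ix G E', A i.1 → ∀ τ, MeromorphicAt (ℓ i τ) z ∧ meromorphicOrderAt (ℓ i τ) z ≠ ⊤) →
  (∀ i : Ix G E', A i.1 → ∀ τ, p i τ ≠ 0) →
  (∀ a : Ix G E' →₀ ℤ, (∀ i ∈ a.support, A i.1) → chr a = 0 →
    (∀ τ, ∀ᶠ s in 𝓝[≠] z, (a.prod fun i n => ℓ i τ s ^ n) = 1) ∧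
    ∃ e : E', e ≠ 0 ∧ ∀ τ : E' →+* ℂ, (a.prod fun i n => p i τ ^ n) = τ e) →
  (∀ i : Ix G E', A i.1 → ∃ e : E', ∀ τ : E' →+* ℂ,
    Tendsto (ℓ i τ) (𝓝[≠] z) (𝓝 (τ e * p i τ))) →
  ∃ (L : (E' →+* ℂ) → (G → ℂ) → ℂ → ℂ) (P : (E' →+* ℂ) → (G → ℂ) → ℂ),
    (∀ τ, ∀ χ ∈ Irr G, MeromorphicAt (L τ χ) z ∧ meromorphicOrderAt (L τ χ) z ≠ ⊤) ∧
    (∀ τ, ∀ χ ∈ Irr G, P τ χ ≠ 0) ∧
    (∀ (U : Subgroup G) (ψ : U →* E'ˣ), A U →
      Deligne L P z (ind U (fun u => ((ψ u : E'ˣ) : E')))) ∧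
    ∀ a : Ix G E' →₀ ℤ, (∀ i ∈ a.support, A i.1) →
      (∀ (τ : E' →+* ℂ) (m : (G → ℂ) → ℕ), IsDecomp (fun g => τ (chr a g)) m →
        ∀ᶠ s in 𝓝[≠] z, ∏ᶠ χ ∈ Irr G, L τ χ s ^ m χ = a.prod fun i n => ℓ i τ s ^ n) ∧
      ∃ e : E', e ≠ 0 ∧ ∀ (τ : E' →+* ℂ) (m : (G → ℂ) → ℕ), IsDecomp (fun g => τ (chr a g)) m →
        ∏ᶠ χ ∈ Irr G, P τ χ ^ m χ = τ e * a.prod fun i n => p i τ ^ n

/-- [GEN] Brauer's theorem over the coefficient field: every character of a representation over `E'`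
is an integral combination of monomial characters of nilpotent subgroups with values in `E'` -/
def S_GEN : Prop := ∀ (G : Type) [Group G] [Finite G] (E' : Type) [Field E'] [NumberField E']
  (ζ : E'), IsPrimitiveRoot ζ (Monoid.exponent G) → ∀ (f : G → E') (τ : E' →+* ℂ),
  (fun g => τ (f g)) ∈ AddSubgroup.closure (Irr G) →
  ∃ a : Ix G E' →₀ ℤ, (∀ i ∈ a.support, Group.IsNilpotent i.1) ∧ chr a = f

end Pool.Agent.Helper61K9.CV
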