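import Pool.Agent.Helper61K9.CV.BrgA

/-!
# Bridge: functions attached to irreducible characters from functions attached to linear characters
-/

set_option autoImplicit false
set_option linter.unusedSectionVars false

namespace Pool.Agent.Helper61K9.CV.BrgL

open Filter Topology Pool.Agent.R389 Pool.Agent.H541R3.ART Pool.Agent.H302R2 Pool.Agent.H302R3
  Pool.Agent.W446.AS

section

variable {ι : Type*}

/-- products of powers -/
noncomputable def ev (v : ι → ℂ) (a : ι →₀ ℤ) : ℂ := a.prod fun i n => v i ^ n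

/-- replace zero values by one -/
noncomputable def reg (v : ι → ℂ) (i : ι) : ℂ := by
  classical exact if v i = 0 then 1 else v i

lemma reg_ne (v : ι → ℂ) (i : ι) : reg v i ≠ 0 := by
  classical
  unfold reg
  split_ifs with h
  · exact one_ne_zero
  · exact h

lemma reg_of_ne {v : ι → ℂ} {i : ι} (h : v i ≠ 0) : reg v i = v i := by
  classical
  unfold reg
  rw [if_neg h]

lemma ev_reg {v : ι → ℂ} {a : ι →₀ ℤ} (h : ∀ i ∈ a.support, v i ≠ 0) : ev (reg v) a = ev v a := by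
  unfold ev
  exact Finsupp.prod_congr fun i hi => by rw [reg_of_ne (h i hi)]

lemma ev_add {v : ι → ℂ} (hv : ∀ i, v i ≠ 0) (a b : ι →₀ ℤ) : ev v (a + b) = ev v a * ev v b := by
  classical
  unfold ev
  exact Finsupp.prod_add_index' (fun i => zpow_zero _) (fun i m n => zpow_add₀ (hv i) m n)

lemma ev_zero (v : ι → ℂ) : ev v 0 = 1 := by
  unfold ev
  exact Finsupp.prod_zero_index

lemma ev_ne {v : ι → ℂ} (hv : ∀ i, v i ≠ 0) (a : ι →₀ ℤ) : ev v a ≠ 0 := by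
  unfold ev Finsupp.prod
  exact Finset.prod_ne_zero_iff.2 fun i _ => zpow_ne_zero _ (hv i)

lemma ev_nsmul {v : ι → ℂ} (hv : ∀ i, v i ≠ 0) (n : ℕ) (a : ι →₀ ℤ) :
    ev v (n • a) = ev v a ^ n := by
  induction n with
  | zero => rw [zero_smul, ev_zero, pow_zero]
  | succ n ih => rw [succ_nsmul, ev_add hv, ih, pow_succ]

lemma ev_sum {κ : Type*} {v : ι → ℂ} (hv : ∀ i, v i ≠ 0) (s : Finset κ) (f : κ → ι →₀ ℤ) :
    ev v (∑ k ∈ s, f k) = ∏ k ∈ s, ev v (f k) := by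
  classical
  induction s using Finset.induction_on with
  | empty => rw [Finset.sum_empty, Finset.prod_empty, ev_zero]
  | insert k s hk ih => rw [Finset.sum_insert hk, Finset.prod_insert hk, ev_add hv, ih]

end

section

variable {G : Type} [Group G] [Finite G] {E' : Type} [Field E']

/-- a chosen combination -/
noncomputable def cc (φ : G → E') : Ix G E' →₀ ℤ := by
  classical exact if h : ∃ a : Ix G E' →₀ ℤ, Nl a ∧ chr a = φ then h.choose else 0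

lemma cc_spec {φ : G → E'} (h : ∃ a : Ix G E' →₀ ℤ, Nl a ∧ chr a = φ) :
    Nl (cc φ) ∧ chr (cc φ) = φ := by
  unfold cc
  rw [dif_pos h]
  exact h.choose_spec

/-- the function with `τ ∘ φ = χ` -/
noncomputable def ph (τ : E' →+* ℂ) (χ : G → ℂ) : G → E' := by
  classical exact if h : ∃ φ : G → E', (fun g => τ (φ g)) = χ then h.choose else 0

lemma ph_spec {τ : E' →+* ℂ} {χ : G → ℂ} (h : ∃ φ : G → E', (fun g => τ (φ g)) = χ) :
    (fun g => τ (ph τ χ g)) = χ := by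
  unfold ph
  rw [dif_pos h]
  exact h.choose_spec

lemma ph_irr {ζ : E'} (hζ : IsPrimitiveRoot ζ (Monoid.exponent G)) {τ : E' →+* ℂ} {χ : G → ℂ}
    (h : χ ∈ Irr G) : (fun g => τ (ph τ χ g)) = χ ∧ Nl (cc (ph τ χ)) ∧ chr (cc (ph τ χ)) = ph τ χ := by
  obtain ⟨a, ha, ha'⟩ := exists_chr hζ τ (AddSubgroup.subset_closure h)
  have h1 : ∃ φ : G → E', (fun g => τ (φ g)) = χ := ⟨chr a, funext ha'⟩
  have h2 := ph_spec h1
  refine ⟨h2, cc_spec ⟨a, ha, ?_⟩⟩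
  funext g
  apply τ.injective
  rw [ha']
  exact (congrFun h2 g).symm

lemma ph_comp (τ : E' →+* ℂ) (φ : G → E') : ph τ (fun g => τ (φ g)) = φ := by
  have h := ph_spec (τ := τ) (χ := fun g => τ (φ g)) ⟨φ, rfl⟩
  funext g
  exact τ.injective (congrFun h g)

/-- the irreducible characters over `E'` -/
noncomputable def FF (τ : E' →+* ℂ) : Finset (G → E') := by
  classical exact (irrF G).image (ph τ)

lemma mem_FF {ζ : E'} (hζ : IsPrimitiveRoot ζ (Monoid.exponent G)) (τ : E' →+* ℂ) (φ : G → E')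
    (τ' : E' →+* ℂ) : φ ∈ FF τ ↔ (fun g => τ' (φ g)) ∈ Irr G := by
  classical
  unfold FF
  rw [Finset.mem_image]
  constructor
  · rintro ⟨χ, hχ, rfl⟩
    refine irr_conj hζ τ τ' ?_
    rw [(ph_irr hζ (mem_irrF.1 hχ)).1]
    exact mem_irrF.1 hχ
  · intro h
    exact ⟨fun g => τ (φ g), mem_irrF.2 (irr_conj hζ τ' τ h), ph_comp τ φ⟩

/-- reindexing -/
lemma sum_FF {ζ : E'} (hζ : IsPrimitiveRoot ζ (Monoid.exponent G)) (τ τ' : E' →+* ℂ)
    {M : Type*} [AddCommMonoid M] (h : (G → E') → (G → ℂ) → M) :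
    ∑ χ ∈ irrF G, h (ph τ' χ) χ = ∑ φ ∈ FF (G := G) τ, h φ (fun g => τ' (φ g)) := by
  classical
  refine Finset.sum_nbij' (fun χ => ph τ' χ) (fun φ => fun g => τ' (φ g)) ?_ ?_ ?_ ?_ ?_
  · intro χ hχ
    rw [mem_FF hζ τ _ τ', (ph_irr hζ (mem_irrF.1 hχ)).1]
    exact mem_irrF.1 hχ
  · intro φ hφ
    exact mem_irrF.2 ((mem_FF hζ τ φ τ').1 hφ)
  · intro χ hχ
    exact (ph_irr hζ (mem_irrF.1 hχ)).1
  · intro φ _
    exact ph_comp τ' φ
  · intro χ hχ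
    rw [(ph_irr hζ (mem_irrF.1 hχ)).1]

variable [CharZero E']

/-- the multiplicities -/
noncomputable def nn (a : Ix G E' →₀ ℤ) (φ : G → E') : ℕ := by
  classical exact if h : ∃ k : ℕ, (k : E') = prE (chr a) φ then h.choose else 0

lemma nn_eq {ζ : E'} (hζ : IsPrimitiveRoot ζ (Monoid.exponent G)) {τ τ' : E' →+* ℂ}
    {a : Ix G E' →₀ ℤ} {m : (G → ℂ) → ℕ} (hm : IsDecomp (fun g => τ' (chr a g)) m)
    {φ : G → E'} (hφ : φ ∈ FF (G := G) τ) : m (fun g => τ' (φ g)) = nn a φ := by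
  have h1 := (mem_FF hζ τ φ τ').1 hφ
  have h2 := hm.pr h1
  rw [← prE_map] at h2
  have h3 : ((m fun g => τ' (φ g) : ℕ) : E') = prE (chr a) φ := by
    apply τ'.injective
    rw [map_natCast, h2]
  have h4 : ∃ k : ℕ, (k : E') = prE (chr a) φ := ⟨_, h3⟩
  unfold nn
  rw [dif_pos h4]
  have h5 := h4.choose_spec
  exact Nat.cast_injective (h3.trans h5.symm)

/-- the difference -/
noncomputable def DD (τ : E' →+* ℂ) (a : Ix G E' →₀ ℤ) : Ix G E' →₀ ℤ :=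
  a - ∑ φ ∈ FF (G := G) τ, nn a φ • cc φ

lemma sum_eq {ζ : E'} (hζ : IsPrimitiveRoot ζ (Monoid.exponent G)) {τ τ' : E' →+* ℂ}
    {a : Ix G E' →₀ ℤ} {m : (G → ℂ) → ℕ} (hm : IsDecomp (fun g => τ' (chr a g)) m) :
    a = DD τ a + ∑ χ ∈ irrF G, m χ • cc (ph τ' χ) := by
  rw [sum_FF hζ τ τ' (fun φ χ => m χ • cc φ), DD]
  have : ∑ φ ∈ FF (G := G) τ, m (fun g => τ' (φ g)) • cc φ
      = ∑ φ ∈ FF (G := G) τ, nn a φ • cc φ :=
    Finset.sum_congr rfl fun φ hφ => by rw [nn_eq hζ hm hφ]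
  rw [this]
  abel

lemma chr_DD {ζ : E'} (hζ : IsPrimitiveRoot ζ (Monoid.exponent G)) {τ τ' : E' →+* ℂ}
    {a : Ix G E' →₀ ℤ} {m : (G → ℂ) → ℕ} (hm : IsDecomp (fun g => τ' (chr a g)) m) :
    chr (DD τ a) = 0 := by
  have h1 := sum_eq (τ := τ) hζ hm
  have h2 : chr a = chr (DD τ a) + ∑ χ ∈ irrF G, m χ • ph τ' χ := by
    have h3 : chrHom a = chrHom (DD τ a + ∑ χ ∈ irrF G, m χ • cc (ph τ' χ)) := by rw [← h1]
    rw [map_add, map_sum] at h3
    rw [chrHom_apply, chrHom_apply] at h3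
    rw [h3]
    congr 1
    refine Finset.sum_congr rfl fun χ hχ => ?_
    rw [map_nsmul, chrHom_apply, (ph_irr hζ (mem_irrF.1 hχ)).2.2]
  funext g
  apply τ'.injective
  rw [Pi.zero_apply, map_zero]
  have h3 := hm g
  simp only at h3
  rw [finsum_irr (fun χ => (m χ : ℂ) * χ g), h2, Pi.add_apply, map_add] at h3
  have h4 : τ' ((∑ χ ∈ irrF G, m χ • ph τ' χ) g) = ∑ χ ∈ irrF G, (m χ : ℂ) * χ g := by
    rw [Finset.sum_apply, map_sum]
    refine Finset.sum_congr rfl fun χ hχ => ?_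
    rw [Pi.smul_apply, nsmul_eq_mul, map_mul, map_natCast]
    congr 1
    exact congrFun (ph_irr hζ (mem_irrF.1 hχ)).1 g
  rw [h4] at h3
  have h5 := h3
  linear_combination h5

lemma supp_DD {ζ : E'} (hζ : IsPrimitiveRoot ζ (Monoid.exponent G)) (τ : E' →+* ℂ)
    {A : Subgroup G → Prop} (hA : ∀ U : Subgroup G, Group.IsNilpotent U → A U)
    {a : Ix G E' →₀ ℤ} (ha : ∀ i ∈ a.support, A i.1) : ∀ i ∈ (DD τ a).support, A i.1 := by
  classical
  intro i hi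
  unfold DD at hi
  rcases Finset.mem_union.1 (Finsupp.support_sub hi) with h | h
  · exact ha i h
  · have h1 := Finsupp.support_finsetSum h
    rw [Finset.mem_biUnion] at h1
    obtain ⟨φ, hφ, h2⟩ := h1
    have h3 := Finsupp.support_smul h2
    have h4 := (mem_FF hζ τ φ τ).1 hφ
    have h5 := (ph_irr (τ := τ) hζ h4).2.1
    rw [ph_comp] at h5
    exact hA _ (h5 i h3)

/-- the relation between the values -/
lemma main_id {ζ : E'} (hζ : IsPrimitiveRoot ζ (Monoid.exponent G)) {τ₀ τ : E' →+* ℂ}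
    {a : Ix G E' →₀ ℤ} {m : (G → ℂ) → ℕ} (hm : IsDecomp (fun g => τ (chr a g)) m)
    (v : Ix G E' → ℂ) (h1 : ∀ i ∈ a.support, v i ≠ 0) (h2 : ∀ i ∈ (DD τ₀ a).support, v i ≠ 0)
    (h3 : ∀ χ ∈ irrF G, ∀ i ∈ (cc (ph τ χ)).support, v i ≠ 0) :
    (∏ χ ∈ irrF G, ev v (cc (ph τ χ)) ^ m χ) * ev v (DD τ₀ a) = ev v a := by
  rw [← ev_reg h1, ← ev_reg h2]
  have h4 : ∏ χ ∈ irrF G, ev v (cc (ph τ χ)) ^ m χ
      = ev (reg v) (∑ χ ∈ irrF G, m χ • cc (ph τ χ)) := by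
    rw [ev_sum (reg_ne v)]
    refine Finset.prod_congr rfl fun χ hχ => ?_
    rw [ev_nsmul (reg_ne v), ev_reg (h3 χ hχ)]
  rw [h4, mul_comm, ← ev_add (reg_ne v), ← sum_eq hζ hm]

end

section

variable {G : Type} [Group G] [Finite G] {E' : Type} [Field E']

lemma ev_mero {z : ℂ} (ℓ : Ix G E' → (E' →+* ℂ) → ℂ → ℂ) (τ : E' →+* ℂ) (a : Ix G E' →₀ ℤ)
    (h : ∀ i ∈ a.support, MeromorphicAt (ℓ i τ) z ∧ meromorphicOrderAt (ℓ i τ) z ≠ ⊤) :
    MeromorphicAt (fun s => ev (fun i => ℓ i τ s) a) z ∧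
      meromorphicOrderAt (fun s => ev (fun i => ℓ i τ s) a) z ≠ ⊤ := by
  classical
  have h1 : MeromorphicAt (fun s => ev (fun i => ℓ i τ s) a) z := by
    have : (fun s => ev (fun i => ℓ i τ s) a) = fun s => ∏ i ∈ a.support, ℓ i τ s ^ a i := rfl
    rw [this]
    exact MeromorphicAt.fun_prod fun i hi => ((h i hi).1).fun_zpow _
  refine ⟨h1, (meromorphicOrderAt_ne_top_iff_eventually_ne_zero h1).2 ?_⟩
  have h2 : ∀ᶠ s in 𝓝[≠] z, ∀ i ∈ a.support, ℓ i τ s ≠ 0 := by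
    rw [Filter.eventually_all_finset]
    intro i hi
    exact (meromorphicOrderAt_ne_top_iff_eventually_ne_zero (h i hi).1).1 (h i hi).2
  filter_upwards [h2] with s hs
  unfold ev Finsupp.prod
  exact Finset.prod_ne_zero_iff.2 fun i hi => zpow_ne_zero _ (hs i hi)

end

end Pool.Agent.Helper61K9.CV.BrgL

namespace Pool.Agent.Helper61K9.CV

open Filter Topology Pool.Agent.R389 Pool.Agent.H541R3.ART Pool.Agent.H302R2 Pool.Agent.H302R3
  Pool.Agent.W446.AS BrgL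

/-- Brauer's theorem over the coefficient field -/
theorem BrgL.gen : S_GEN := by
  intro G _ _ E' _ _ ζ hζ f τ hf
  obtain ⟨a, ha, h⟩ := exists_chr hζ τ hf
  exact ⟨a, ha, funext fun g => τ.injective (h g)⟩

/-- Leaf BRG. -/
theorem brg (_ : S_GEN) : S_BRG := by
  intro G _ _ E' _ _ ζ hζ A hA z ℓ p hℓ hp hrel hval
  classical
  obtain ⟨τ₀⟩ : Nonempty (E' →+* ℂ) := inferInstance
  have hA' : ∀ U : Subgroup G, Group.IsNilpotent U → A U := fun U h => hA U (Or.inr h)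
  have hcc : ∀ (τ : E' →+* ℂ), ∀ χ ∈ Irr G, ∀ i ∈ (cc (ph τ χ)).support, A i.1 := by
    intro τ χ hχ i hi
    exact hA' _ ((ph_irr hζ hχ).2.1 i hi)
  have hne : ∀ (τ : E' →+* ℂ) (a : Ix G E' →₀ ℤ), (∀ i ∈ a.support, A i.1) →
      ∀ᶠ s in 𝓝[≠] z, ∀ i ∈ a.support, ℓ i τ s ≠ 0 := by
    intro τ a ha
    rw [Filter.eventually_all_finset]
    intro i hi
    have h := hℓ i (ha i hi) τ
    exact (meromorphicOrderAt_ne_top_iff_eventually_ne_zero h.1).1 h.2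
  have key : ∀ a : Ix G E' →₀ ℤ, (∀ i ∈ a.support, A i.1) →
      (∀ (τ : E' →+* ℂ) (m : (G → ℂ) → ℕ), IsDecomp (fun g => τ (chr a g)) m →
        ∀ᶠ s in 𝓝[≠] z, ∏ᶠ χ ∈ Irr G, ev (fun i => ℓ i τ s) (cc (ph τ χ)) ^ m χ
          = ev (fun i => ℓ i τ s) a) ∧
      ∃ e : E', e ≠ 0 ∧ ∀ (τ : E' →+* ℂ) (m : (G → ℂ) → ℕ), IsDecomp (fun g => τ (chr a g)) m →
        ∏ᶠ χ ∈ Irr G, ev (fun i => p i τ) (cc (ph τ χ)) ^ m χ
          = τ e * ev (fun i => p i τ) a := by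
    intro a ha
    have hsD := supp_DD hζ τ₀ hA' ha
    by_cases hex : ∃ (τ : E' →+* ℂ) (m : (G → ℂ) → ℕ), IsDecomp (fun g => τ (chr a g)) m
    · obtain ⟨τ₁, m₁, hm₁⟩ := hex
      obtain ⟨hr1, e, he, hr2⟩ := hrel (DD τ₀ a) hsD (chr_DD hζ hm₁)
      refine ⟨fun τ m hm => ?_, e⁻¹, inv_ne_zero he, fun τ m hm => ?_⟩
      · have e3 : ∀ᶠ s in 𝓝[≠] z, ∀ χ ∈ irrF G, ∀ i ∈ (cc (ph τ χ)).support, ℓ i τ s ≠ 0 := by
          rw [Filter.eventually_all_finset]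
          intro χ hχ
          exact hne τ _ (hcc τ χ (mem_irrF.1 hχ))
        filter_upwards [hr1 τ, hne τ a ha, hne τ _ hsD, e3] with s h0 h1 h2 h3
        have h4 := main_id hζ hm (τ₀ := τ₀) (fun i => ℓ i τ s) h1 h2 h3
        have h5 : ev (fun i => ℓ i τ s) (DD τ₀ a) = 1 := h0
        rw [finprod_irr (fun χ => ev (fun i => ℓ i τ s) (cc (ph τ χ)) ^ m χ), ← h4, h5, mul_one]
      · have h4 := main_id hζ hm (τ₀ := τ₀) (fun i => p i τ) (fun i hi => hp i (ha i hi) τ)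
          (fun i hi => hp i (hsD i hi) τ)
          (fun χ hχ i hi => hp i (hcc τ χ (mem_irrF.1 hχ) i hi) τ)
        have h5 : ev (fun i => p i τ) (DD τ₀ a) = τ e := hr2 τ
        have h6 : τ e ≠ 0 := (map_ne_zero τ).2 he
        rw [finprod_irr (fun χ => ev (fun i => p i τ) (cc (ph τ χ)) ^ m χ), ← h4, h5, map_inv₀]
        field_simp
    · refine ⟨fun τ m hm => absurd ⟨τ, m, hm⟩ hex, 1, one_ne_zero,
        fun τ m hm => absurd ⟨τ, m, hm⟩ hex⟩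
  refine ⟨fun τ χ s => ev (fun i => ℓ i τ s) (cc (ph τ χ)),
    fun τ χ => ev (fun i => p i τ) (cc (ph τ χ)), ?_, ?_, ?_, key⟩
  · intro τ χ hχ
    exact ev_mero ℓ τ _ fun i hi => hℓ i (hcc τ χ hχ i hi) τ
  · intro τ χ hχ
    unfold ev Finsupp.prod
    exact Finset.prod_ne_zero_iff.2 fun i hi => zpow_ne_zero _ (hp i (hcc τ χ hχ i hi) τ)
  · intro U ψ hU
    have hs : ∀ i ∈ (Finsupp.single (⟨U, ψ⟩ : Ix G E') (1 : ℤ)).support, A i.1 := by
      intro i hi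
      have := Finsupp.support_single_subset hi
      rw [Finset.mem_singleton] at this
      subst this
      exact hU
    have hc : chr (Finsupp.single (⟨U, ψ⟩ : Ix G E') (1 : ℤ))
        = ind U (fun u => ((ψ u : E'ˣ) : E')) := by
      funext g
      rw [chr_single, Int.cast_one, one_mul]
    have hev : ∀ v : Ix G E' → ℂ, ev v (Finsupp.single (⟨U, ψ⟩ : Ix G E') (1 : ℤ)) = v ⟨U, ψ⟩ := by
      intro v
      unfold ev
      rw [Finsupp.prod_single_index (zpow_zero _), zpow_one]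
    obtain ⟨k1, e, he, k2⟩ := key _ hs
    rw [hc] at k1 k2
    obtain ⟨e₀, he₀⟩ := hval ⟨U, ψ⟩ hU
    refine ⟨e₀ / e, fun τ m hm => ?_⟩
    have h1 := k2 τ m hm
    rw [hev] at h1
    have h2 := k1 τ m hm
    have h6 : τ e ≠ 0 := (map_ne_zero τ).2 he
    have h3 : τ (e₀ / e) * ∏ᶠ χ ∈ Irr G, ev (fun i => p i τ) (cc (ph τ χ)) ^ m χ
        = τ e₀ * p ⟨U, ψ⟩ τ := by
      rw [h1, map_div₀]
      field_simp
    show Tendsto (fun s => ∏ᶠ χ ∈ Irr G, ev (fun i => ℓ i τ s) (cc (ph τ χ)) ^ m χ) (𝓝[≠] z)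
      (𝓝 (τ (e₀ / e) * ∏ᶠ χ ∈ Irr G, ev (fun i => p i τ) (cc (ph τ χ)) ^ m χ))
    rw [h3]
    refine (he₀ τ).congr' ?_
    filter_upwards [h2] with s hs
    rw [hs, hev]

end Pool.Agent.Helper61K9.CV
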