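import Pool.Agent.R389.Main
import Pool.Agent.R389.SmallMain

/-!
# The regular character and the characters induced from normal subgroups
-/

set_option autoImplicit false
set_option linter.unusedSectionVars false

namespace Pool.Agent.Helper61K9.CV

open Filter Topology Pool.Agent.R389 Pool.Agent.H541R3.ART Pool.Agent.H302R2 Pool.Agent.H302R3
  Pool.Agent.W446.AS

section

variable {G : Type} [Group G] [Finite G] {E : Type} [Field E]

/-- the embedded induced character -/
theorem ind_emb (τ : E →+* ℂ) (U : Subgroup G) (ψ : U →* Eˣ) :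
    (fun g => τ (ind U (fun u => ((ψ u : Eˣ) : E)) g))
      = ind U (fun u => ((((Units.map τ.toMonoidHom).comp ψ) u : ℂˣ) : ℂ)) := by
  funext g
  rw [ind_map]
  rfl

open Classical in
/-- the decomposition of the character induced from a normal subgroup -/
theorem decomp_old (τ : E →+* ℂ) (K : Subgroup G) [K.Normal] (lam : G →* Eˣ)
    {deg : (G → ℂ) → ℕ} (hdeg : ∀ χ ∈ Irr G, χ 1 = deg χ) :
    IsDecomp (fun g => τ (ind K (fun u => ((lam u : Eˣ) : E)) g))
      (fun χ => if ∀ k ∈ K, χ k = χ 1 * τ ((lam k : Eˣ) : E) then deg χ else 0) := by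
  have h0 := ind_emb τ K (lam.comp K.subtype)
  change (fun g => τ (ind K (fun u => ((lam u : Eˣ) : E)) g)) = _ at h0
  rw [h0]
  refine IsDecomp.of_pr (fun g x => ind_class K _ g x) fun χ hχ => ?_
  have : Fintype K := Fintype.ofFinite K
  set lam₀ : G →* ℂˣ := (Units.map τ.toMonoidHom).comp lam with hlam
  rw [frob K _ (Irr.conj hχ), pr_eq]
  have h1 : (Nat.card K : ℂ)⁻¹ * ∑ g : K, ((((Units.map τ.toMonoidHom).comp
      (lam.comp K.subtype)) g : ℂˣ) : ℂ) * χ (((g⁻¹ : K) : K) : G)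
      = inv K (fun g => χ g * ((lam₀⁻¹ g : ℂˣ) : ℂ)) 1 := by
    rw [inv_eq, ← Equiv.sum_comp (Equiv.inv K)]
    congr 1
    refine Finset.sum_congr rfl fun k _ => ?_
    rw [one_mul, Equiv.inv_apply, inv_inv, map_inv, mul_comm]
    rfl
  rw [h1]
  rcases irr_inv K (irr_twist hχ lam₀⁻¹) with h | ⟨⟨k, hk, hne⟩, h⟩
  · have hold : ∀ k ∈ K, χ k = χ 1 * τ ((lam k : Eˣ) : E) := by
      intro k hk
      have h2 := h 1 k hk
      simp only [one_mul, map_one, Units.val_one, mul_one, MonoidHom.inv_apply] at h2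
      have h3 : τ ((lam k : Eˣ) : E) = ((lam₀ k : ℂˣ) : ℂ) := rfl
      rw [h3, ← h2, mul_assoc, ← Units.val_mul, inv_mul_cancel, Units.val_one, mul_one]
    rw [if_pos hold, inv_of_const K h, hdeg χ hχ]
    simp only [map_one, Units.val_one, mul_one]
  · rw [h, if_neg]
    · simp
    · intro hold
      apply hne
      have h3 : τ ((lam k : Eˣ) : E) = ((lam₀ k : ℂˣ) : ℂ) := rfl
      simp only [MonoidHom.inv_apply, map_one, Units.val_one, mul_one]
      rw [hold k hk, h3, mul_assoc, ← Units.val_mul, mul_inv_cancel, Units.val_one, mul_one]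

/-- the decomposition of the regular character -/
theorem decomp_reg (τ : E →+* ℂ) {deg : (G → ℂ) → ℕ} (hdeg : ∀ χ ∈ Irr G, χ 1 = deg χ) :
    IsDecomp (fun g => τ (ind (⊥ : Subgroup G)
      (fun u => (((1 : (⊥ : Subgroup G) →* Eˣ) u : Eˣ) : E)) g)) deg := by
  classical
  have h := decomp_old τ (⊥ : Subgroup G) (1 : G →* Eˣ) hdeg
  have h2 : ∀ χ : G → ℂ, ∀ k ∈ (⊥ : Subgroup G), χ k = χ 1 * τ ((((1 : G →* Eˣ) k : Eˣ)) : E) := by
    intro χ k hk
    rw [Subgroup.mem_bot] at hk
    subst hk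
    simp
  intro g
  have h3 := h g
  simp only [if_pos (h2 _)] at h3
  exact h3

open Classical in
/-- products over the old characters -/
theorem prod_old (p : (G → ℂ) → Prop) (deg : (G → ℂ) → ℕ) (F : (G → ℂ) → ℂ) :
    ∏ᶠ χ ∈ {χ ∈ Irr G | p χ}, F χ ^ deg χ
      = ∏ᶠ χ ∈ Irr G, F χ ^ (if p χ then deg χ else 0) := by
  rw [finprod_irr (fun χ => F χ ^ (if p χ then deg χ else 0)),
    finprod_mem_eq_prod_of_inter_mulSupport_eq (t := (irrF G).filter p) _ (by
      congr 1
      ext χ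
      simp [mem_irrF]), Finset.prod_filter]
  refine Finset.prod_congr rfl fun χ _ => ?_
  by_cases h : p χ
  · rw [if_pos h, if_pos h]
  · rw [if_neg h, if_neg h, pow_zero]

/-- degrees -/
theorem exists_deg (G : Type) [Group G] [Finite G] :
    ∃ deg : (G → ℂ) → ℕ, ∀ χ ∈ Irr G, χ 1 = deg χ := by
  classical
  refine ⟨fun χ => if h : χ ∈ Irr G then (irr_deg_pos h).choose else 0, fun χ hχ => ?_⟩
  beta_reduce
  rw [dif_pos hχ]
  exact (irr_deg_pos hχ).choose_spec.2

end

end Pool.Agent.Helper61K9.CV
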