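import Pool.Agent.R389.Main
import Pool.Agent.R389.Grow
import Pool.Agent.R389.SmallMain

/-!
# Representations on which a normal subgroup acts by a character
-/

set_option autoImplicit false
set_option linter.unusedSectionVars false

namespace Pool.Agent.Helper61K9.CV

open Filter Topology Pool.Agent.R389 Pool.Agent.H541R3.ART Pool.Agent.H302R2 Pool.Agent.H302R3
  Pool.Agent.W446.AS

section

variable {G : Type} [Group G] [Finite G]

/-- the monomial characters of the subgroups that contain `K` -/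
def MonK (K : Subgroup G) : AddSubmonoid (G → ℂ) :=
  AddSubmonoid.closure {f | ∃ (U : Subgroup G) (ψ : U →* ℂˣ), K ≤ U ∧
    f = ind U (fun h => ((ψ h : ℂˣ) : ℂ))}

theorem old_mono {K : Subgroup G} [K.Normal] (hQ : ∀ χ ∈ Irr (G ⧸ K), Mono χ) (lam₀ : G →* ℂˣ) {f : G → ℂ}
    (hf : f ∈ AddSubmonoid.closure (Irr G))
    (hK : ∀ g, ∀ k ∈ K, f (g * k) = f g * ((lam₀ k : ℂˣ) : ℂ)) : f ∈ MonK K := by
  classical
  have : Fintype K := Fintype.ofFinite K
  let T : (G → ℂ) →+ (G → ℂ) := (twHom lam₀).comp ((invHom K).comp (twHom lam₀⁻¹))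
  have hT : ∀ χ ∈ Irr G, T χ ∈ MonK K := by
    intro χ hχ
    have hχ' := irr_twist hχ lam₀⁻¹
    change twHom lam₀ (inv K (fun g => χ g * ((lam₀⁻¹ g : ℂˣ) : ℂ))) ∈ MonK K
    obtain ⟨n, ρ, hρ, hρc⟩ := exists_rep hχ'
    rcases hρ.normal_dich K with h | h
    · obtain ⟨ψ, hψ, hψ1⟩ := descend_irr (QuotientGroup.mk'_surjective K) hρ (by
        intro g hg
        rw [QuotientGroup.ker_mk'] at hg
        exact h g hg)
      obtain ⟨V, μ, hμ⟩ := hQ ψ hψ
      have h1 : (fun g => χ g * ((lam₀⁻¹ g : ℂˣ) : ℂ)) = fun g => ψ (QuotientGroup.mk' K g) := by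
        rw [hρc]
        exact funext hψ1
      have h2 := ind_comap (QuotientGroup.mk'_surjective K) V (fun h => ((μ h : ℂˣ) : ℂ))
      let φ : V.comap (QuotientGroup.mk' K) →* V :=
        { toFun := fun h => ⟨QuotientGroup.mk' K h, h.2⟩
          map_one' := by apply Subtype.ext; simp
          map_mul' := by intro a b; apply Subtype.ext; simp }
      have h3 : inv K (fun g => χ g * ((lam₀⁻¹ g : ℂˣ) : ℂ))
          = ind (V.comap (QuotientGroup.mk' K)) (fun h => (((μ.comp φ) h : ℂˣ) : ℂ)) := by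
        rw [h1, inv_of_const K (fun g k hk => by
          congr 1
          rw [map_mul]
          have : QuotientGroup.mk' K k = 1 := (QuotientGroup.eq_one_iff k).mpr hk
          rw [this, mul_one])]
        funext g
        rw [hμ]
        exact congrFun h2 g
      refine AddSubmonoid.subset_closure ⟨V.comap (QuotientGroup.mk' K),
        (μ.comp φ) * lam₀.comp (V.comap (QuotientGroup.mk' K)).subtype, ?_, ?_⟩
      · intro x hx
        rw [Subgroup.mem_comap]
        have : QuotientGroup.mk' K x = 1 := (QuotientGroup.eq_one_iff x).mpr hx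
        rw [this]
        exact V.one_mem
      · rw [h3]
        funext g
        change ind _ _ g * ((lam₀ g : ℂˣ) : ℂ) = _
        have h4 := ind_mul (V.comap (QuotientGroup.mk' K))
          (fun h => (((μ.comp φ) h : ℂˣ) : ℂ)) (F := fun g => ((lam₀ g : ℂˣ) : ℂ))
          (fun g x => lin_conj lam₀ g x) g
        rw [← h4]
        rfl
    · have h1 : inv K (fun g => χ g * ((lam₀⁻¹ g : ℂˣ) : ℂ)) = 0 := by
        rw [hρc]
        funext g
        rw [inv_eq, h g, mul_zero]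
        rfl
      rw [h1, map_zero]
      exact zero_mem _
  have h1 : T f ∈ MonK K := by
    have h2 : AddSubmonoid.closure (Irr G) ≤ (MonK K).comap T := by
      rw [AddSubmonoid.closure_le]
      exact hT
    exact h2 hf
  have h3 : T f = f := by
    change twHom lam₀ (inv K (twHom lam₀⁻¹ f)) = f
    rw [inv_of_const K (fun g k hk => by
      change f (g * k) * ((lam₀⁻¹ (g * k) : ℂˣ) : ℂ) = f g * ((lam₀⁻¹ g : ℂˣ) : ℂ)
      rw [hK g k hk, map_mul, mul_assoc]
      congr 1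
      rw [Units.val_mul, MonoidHom.inv_apply lam₀ k, mul_comm (((lam₀⁻¹ g : ℂˣ)) : ℂ), ← mul_assoc,
        ← Units.val_mul, mul_inv_cancel, Units.val_one, one_mul])]
    funext g
    change f g * ((lam₀⁻¹ g : ℂˣ) : ℂ) * ((lam₀ g : ℂˣ) : ℂ) = f g
    rw [MonoidHom.inv_apply, mul_assoc, ← Units.val_mul, inv_mul_cancel, Units.val_one, mul_one]
  rwa [h3] at h1

variable {E : Type} [Field E]
  {L : (E →+* ℂ) → (G → ℂ) → ℂ → ℂ} {P : (E →+* ℂ) → (G → ℂ) → ℂ} {c : ℂ}

/-- sums of monomial characters of the subgroups that contain `K` -/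
theorem monK_del {ζ : E} (hζ : IsPrimitiveRoot ζ (Monoid.exponent G))
    (hL : ∀ τ, ∀ χ ∈ Irr G, MeromorphicAt (L τ χ) c ∧ meromorphicOrderAt (L τ χ) c ≠ ⊤)
    (hP : ∀ τ, ∀ χ ∈ Irr G, P τ χ ≠ 0) (K : Subgroup G)
    (hmon : ∀ (U : Subgroup G) (ψ : U →* Eˣ), K ≤ U →
      Deligne L P c (ind U (fun u => ((ψ u : Eˣ) : E)))) (τ₀ : E →+* ℂ)
    {a : G → ℂ} (ha : a ∈ MonK K) :
    ∃ (f : G → E) (e : E), (∀ g, τ₀ (f g) = a g) ∧ DelZ L P c f e := by
  classical
  unfold MonK at ha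
  induction ha using AddSubmonoid.closure_induction with
  | mem s hs =>
    obtain ⟨U, ψ, hU, rfl⟩ := hs
    obtain ⟨ψE, hψE⟩ := lift_char hζ τ₀ U ψ
    obtain ⟨e, he⟩ := delZ_ind (hmon U ψE hU)
    refine ⟨_, e, ?_, he⟩
    intro g
    rw [ind_map]
    congr 1
    funext u
    exact hψE u
  | zero => exact ⟨0, 1, fun g => map_zero τ₀, DelZ.zero⟩
  | add a b _ _ ha hb =>
    obtain ⟨f, e, h1, h3⟩ := ha
    obtain ⟨f', e', h1', h3'⟩ := hb
    exact ⟨f + f', e * e', fun g => by rw [Pi.add_apply, map_add, h1, h1']; rfl,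
      h3.add hL hP h3'⟩

/-- the old representations -/
theorem old_deligne {ζ : E} (hζ : IsPrimitiveRoot ζ (Monoid.exponent G))
    (hL : ∀ τ, ∀ χ ∈ Irr G, MeromorphicAt (L τ χ) c ∧ meromorphicOrderAt (L τ χ) c ≠ ⊤)
    (hP : ∀ τ, ∀ χ ∈ Irr G, P τ χ ≠ 0) (K : Subgroup G) [K.Normal]
    (hQ : ∀ χ ∈ Irr (G ⧸ K), Mono χ)
    (hmon : ∀ (U : Subgroup G) (ψ : U →* Eˣ), K ≤ U →
      Deligne L P c (ind U (fun u => ((ψ u : Eˣ) : E)))) (τ₀ : E →+* ℂ) (lam : G →* Eˣ)
    {W : Type} [AddCommGroup W] [Module E W] [FiniteDimensional E W] (σ : Representation E G W)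
    (hσ : ∀ k ∈ K, ∀ w, σ k w = ((lam k : Eˣ) : E) • w) : Deligne L P c σ.character := by
  have h1 := old_mono hQ ((Units.map τ₀.toMonoidHom).comp lam) (base_change τ₀ σ) (by
    intro g k hk
    change τ₀ (LinearMap.trace E W (σ (g * k))) = τ₀ (LinearMap.trace E W (σ g)) * τ₀ (lam k : E)
    have h2 : σ (g * k) = ((lam k : Eˣ) : E) • σ g := by
      rw [map_mul]
      ext w
      change σ g (σ k w) = ((lam k : Eˣ) : E) • σ g w
      rw [hσ k hk, map_smul]
    rw [h2, map_smul, smul_eq_mul, map_mul, mul_comm])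
  obtain ⟨f, e, hf, he⟩ := monK_del hζ hL hP K hmon τ₀ h1
  have h2 : σ.character = f := funext fun g => τ₀.injective (hf g).symm
  rw [h2]
  exact he.deligne

end

end Pool.Agent.Helper61K9.CV
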