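import Pool.Agent.Helper61K9.CV.Stm

/-!
# Bridge, first part: Brauer's theorem over the coefficient field, conjugate characters
-/

set_option autoImplicit false
set_option linter.unusedSectionVars false

namespace Pool.Agent.Helper61K9.CV.BrgL

open Filter Topology Pool.Agent.R389 Pool.Agent.H541R3.ART Pool.Agent.H302R2 Pool.Agent.H302R3
  Pool.Agent.W446.AS

section

variable {G : Type} [Group G] [Finite G]

/-- virtual characters of nilpotent groups -/
lemma nil_pn (hG : Group.IsNilpotent G) {f : G → ℂ} (hf : Virt f) : f ∈ PN G := by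
  have h1 : AddSubgroup.closure (Irr G) ≤ PN G := by
    rw [AddSubgroup.closure_le]
    intro χ hχ
    obtain ⟨J, μ, hμ⟩ := nil_mono _ G rfl hG χ hχ
    refine AddSubgroup.subset_closure ⟨J, μ, inferInstance, ?_⟩
    exact hμ
  exact h1 hf

/-- **Brauer's theorem** for virtual characters -/
lemma virt_pn {f : G → ℂ} (hf : Virt f) : f ∈ PN G := by
  have h1 : ∀ h ∈ PN G, (fun g => h g * f g) ∈ PN G := by
    intro h hh
    induction hh using AddSubgroup.closure_induction with
    | mem h hh =>
      obtain ⟨V, ψ, hV, rfl⟩ := hh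
      have h2 : (fun g => ind V (fun h => ((ψ h : ℂˣ) : ℂ)) g * f g)
          = ind V (fun h => ((ψ h : ℂˣ) : ℂ) * f h) := by
        funext g
        rw [ind_mul V (fun h => ((ψ h : ℂˣ) : ℂ)) (F := f) (fun g x => hf.conj g x)]
      rw [h2]
      apply ind_pn
      have h3 : (fun h : V => f h) ∈ PN V := nil_pn hV (hf.comp V.subtype)
      have h4 := tw_pn ψ h3
      have h5 : (fun h : V => ((ψ h : ℂˣ) : ℂ) * f h) = fun u : V => f u * ((ψ u : ℂˣ) : ℂ) := by
        funext u
        rw [mul_comm]
      rw [h5]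
      exact h4
    | zero =>
      have : (fun g => (0 : G → ℂ) g * f g) = 0 := by funext g; simp
      rw [this]
      exact zero_mem _
    | add a b _ _ ha hb =>
      have : (fun g => (a + b) g * f g) = (fun g => a g * f g) + fun g => b g * f g := by
        funext g; simp [add_mul]
      rw [this]
      exact add_mem ha hb
    | neg a _ ha =>
      have : (fun g => (-a) g * f g) = -fun g => a g * f g := by
        funext g; simp
      rw [this]
      exact neg_mem ha
  have h2 := h1 _ one_mem_pn
  simpa using h2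

variable {E' : Type} [Field E']

lemma chr_single (i : Ix G E') (n : ℤ) (g : G) :
    chr (Finsupp.single i n) g = (n : E') * ind i.1 (fun u => ((i.2 u : E'ˣ) : E')) g := by
  unfold chr
  rw [Finsupp.sum_single_index]
  simp

lemma chr_zero : chr (0 : Ix G E' →₀ ℤ) = 0 := by
  funext g
  unfold chr
  rw [Finsupp.sum_zero_index]
  rfl

lemma chr_add (a b : Ix G E' →₀ ℤ) : chr (a + b) = chr a + chr b := by
  classical
  funext g
  unfold chr
  rw [Finsupp.sum_add_index']
  · rfl
  · intro i; simp
  · intro i m n; push_cast; ring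

/-- `chr` as a homomorphism -/
noncomputable def chrHom : (Ix G E' →₀ ℤ) →+ (G → E') where
  toFun := chr
  map_zero' := chr_zero
  map_add' := chr_add

lemma chrHom_apply (a : Ix G E' →₀ ℤ) : chrHom a = chr a := rfl

lemma chr_neg (a : Ix G E' →₀ ℤ) : chr (-a) = - chr a := map_neg chrHom a

/-- supported on nilpotent subgroups -/
def Nl (a : Ix G E' →₀ ℤ) : Prop := ∀ i ∈ a.support, Group.IsNilpotent i.1

lemma Nl.add {a b : Ix G E' →₀ ℤ} (ha : Nl a) (hb : Nl b) : Nl (a + b) := by
  classical
  intro i hi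
  rcases Finset.mem_union.1 (Finsupp.support_add hi) with h | h
  · exact ha i h
  · exact hb i h

lemma Nl.neg {a : Ix G E' →₀ ℤ} (ha : Nl a) : Nl (-a) := by
  intro i hi
  rw [Finsupp.support_neg] at hi
  exact ha i hi

/-- every virtual character comes from a combination of monomial characters over `E'` -/
lemma exists_chr {ζ : E'} (hζ : IsPrimitiveRoot ζ (Monoid.exponent G)) (τ : E' →+* ℂ)
    {f : G → ℂ} (hf : Virt f) : ∃ a : Ix G E' →₀ ℤ, Nl a ∧ ∀ g, τ (chr a g) = f g := by
  have h := virt_pn hf
  clear hf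
  induction h using AddSubgroup.closure_induction with
  | mem f hf =>
    obtain ⟨V, ψ, hV, rfl⟩ := hf
    obtain ⟨ψE, hψE⟩ := lift_char hζ τ V ψ
    refine ⟨Finsupp.single ⟨V, ψE⟩ 1, ?_, ?_⟩
    · intro i hi
      have := Finsupp.support_single_subset hi
      rw [Finset.mem_singleton] at this
      subst this
      exact hV
    · intro g
      rw [chr_single, Int.cast_one, one_mul, ind_map]
      congr 1
      funext u
      exact hψE u
  | zero =>
    refine ⟨0, ?_, ?_⟩
    · intro i hi
      simp at hi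
    · intro g
      rw [chr_zero]
      simp
  | add a b _ _ ha hb =>
    obtain ⟨x, hx, hx'⟩ := ha
    obtain ⟨y, hy, hy'⟩ := hb
    refine ⟨x + y, hx.add hy, fun g => ?_⟩
    rw [chr_add, Pi.add_apply, map_add, hx', hy', Pi.add_apply]
  | neg a _ ha =>
    obtain ⟨x, hx, hx'⟩ := ha
    refine ⟨-x, hx.neg, fun g => ?_⟩
    rw [chr_neg, Pi.neg_apply, map_neg, hx', Pi.neg_apply]

lemma ind_virt (U : Subgroup G) (ψ : U →* ℂˣ) : Virt (ind U (fun h => ((ψ h : ℂˣ) : ℂ))) := by
  obtain ⟨m, hm⟩ := ind_isDecomp U ψ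
  have h1 : ind U (fun h => ((ψ h : ℂˣ) : ℂ)) = theta (fun χ => (m χ : ℤ)) := by
    funext g
    have h2 := hm g
    rw [finsum_irr (fun χ => (m χ : ℂ) * χ g)] at h2
    refine h2.trans ?_
    rw [theta]
    simp
  rw [h1]
  exact theta_virt _

/-- `chr` gives virtual characters -/
lemma chr_virt (τ : E' →+* ℂ) (a : Ix G E' →₀ ℤ) : Virt (fun g => τ (chr a g)) := by
  classical
  induction a using Finsupp.induction with
  | zero =>
    have : (fun g : G => τ (chr (0 : Ix G E' →₀ ℤ) g)) = 0 := by
      funext g; rw [chr_zero]; simp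
    rw [this]
    exact zero_mem (AddSubgroup.closure (Irr G))
  | single_add i n f _ _ ih =>
    have h1 : (fun g : G => τ (chr (Finsupp.single i n + f) g))
        = n • ind i.1 (fun h => ((((Units.map τ.toMonoidHom).comp i.2) h : ℂˣ) : ℂ))
          + fun g => τ (chr f g) := by
      funext g
      rw [chr_add, Pi.add_apply, map_add, chr_single, map_mul, map_intCast, ind_map,
        Pi.add_apply, Pi.smul_apply, zsmul_eq_mul]
      rfl
    rw [h1]
    exact add_mem (S := AddSubgroup (G → ℂ))
      (zsmul_mem (S := AddSubgroup (G → ℂ)) (ind_virt _ _) n) ih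

/-- the pairing over `E'` -/
noncomputable def prE (f φ : G → E') : E' := (Nat.card G : E')⁻¹ * ∑ᶠ g, f g * φ g⁻¹

lemma prE_map (τ : E' →+* ℂ) (f φ : G → E') :
    τ (prE f φ) = pr (fun g => τ (f g)) (fun g => τ (φ g)) := by
  classical
  have : Fintype G := Fintype.ofFinite G
  rw [prE, pr_eq, finsum_eq_sum_of_fintype, map_mul, map_inv₀, map_natCast, map_sum]
  congr 1
  exact Finset.sum_congr rfl fun g _ => map_mul _ _ _

/-- conjugates of irreducible characters are irreducible -/
lemma irr_conj {ζ : E'} (hζ : IsPrimitiveRoot ζ (Monoid.exponent G)) (τ τ' : E' →+* ℂ)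
    {φ : G → E'} (h : (fun g => τ (φ g)) ∈ Irr G) : (fun g => τ' (φ g)) ∈ Irr G := by
  have hv : Virt (fun g => τ (φ g)) := AddSubgroup.subset_closure h
  obtain ⟨a, -, ha⟩ := exists_chr hζ τ hv
  have h1 : chr a = φ := by
    funext g
    exact τ.injective (ha g)
  have h2 : Virt (fun g => τ' (φ g)) := by
    rw [← h1]
    exact chr_virt τ' a
  have h3 : prE φ φ = 1 := by
    apply τ.injective
    rw [prE_map, map_one]
    exact pr_self h
  have h4 : pr (fun g => τ' (φ g)) (fun g => τ' (φ g)) = 1 := by
    rw [← prE_map, h3, map_one]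
  obtain ⟨d, -, hd⟩ := irr_deg_pos h
  have h5 : φ 1 = (d : E') := by
    apply τ.injective
    rw [map_natCast]
    exact hd
  refine irr_of_norm h2 h4 (d := d) ?_
  show τ' (φ 1) = _
  rw [h5, map_natCast]

end

end Pool.Agent.Helper61K9.CV.BrgL
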